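import Pool.Agent.X239.DSRed
import Pool.Agent.X239.FptTrans

/-!
# Dual Separator for Two Terminals is `W[1]`-hard

Problem MP_959b39_lc, Q2.

* `Pool.Agent.X239.DS.dualSeparator`: Dual Separator for Two Terminals, parameterized by the bound
  `k` on the size of the separator.
* `W1`, `W1Hard`, `FptDecidable` (`Pool.Agent.H557R2.Fpt`): the class `W[1]` (the problems
  fpt-reducible to `p-Clique`), hardness for it under fpt-reductions, and fixed-parameter
  tractability.
-/

namespace Pool.Agent.Results.MP_959b39_lc.TwoTerminalsW1Hard

open Pool.Agent.H557R2.Fpt Pool.Agent.X239.DS Pool.Agent.X239.FptTrans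

/-- Dual Separator for Two Terminals, parameterized by `k`, is `W[1]`-hard; hence it is
fixed-parameter tractable only if all of `W[1]` is. -/
theorem result : W1Hard dualSeparator ∧
    (FptDecidable dualSeparator → ∀ L ∈ W1, FptDecidable L) :=
  ⟨w1Hard, fun h L hL => FptDecidable.of_reduces (w1Hard L hL) h⟩

end Pool.Agent.Results.MP_959b39_lc.TwoTerminalsW1Hard
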